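import Mathlib
import Pool.Agent.H57.SplAdd

set_option autoImplicit false

open Pool.Agent.H42.Spl Pool.Agent.H42.PolD

namespace Pool.Agent.Results.MP_674062_gt.Independent

/-- `Split(Λ, Λ)` is preserved under countable unions of sets of reals. -/
def Additive : Prop :=
  ∀ X : ℕ → Set ℝ, (∀ n, SplitL (X n)) → SplitL (⋃ n, X n : Set ℝ)

theorem result :
    (Cardinal.continuum.{0} = Cardinal.aleph 1 → ¬ Additive) ∧ (uNum < gNum → Additive) := by
  refine ⟨fun hCH h => ?_, Pool.Agent.H57.SplAdd.pos⟩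
  obtain ⟨X, Y, h1, h2, h3⟩ := Pool.Agent.H57.SplAdd.neg hCH
  have := h (fun n => Nat.casesOn n X fun _ => Y) fun n => Nat.casesOn n h1 fun _ => h2
  have e : (⋃ n : ℕ, (Nat.casesOn n X fun _ => Y : Set ℝ)) = X ∪ Y := by
    rw [← Set.union_iUnion_nat_succ]
    exact congrArg (X ∪ ·) (Set.iUnion_const Y)
  exact h3 (e ▸ this)

end Pool.Agent.Results.MP_674062_gt.Independent
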